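import Pool.Agent.ASD.Stmts4

/-!
# Squad ASD, row PRH: `HK` for a pair
-/

open scoped BigOperators

noncomputable section

namespace Pool.Agent.PP.SD.H55

open Pool.Agent.Helper51_AWC Pool.Agent.Helper79_WRA Pool.Agent.PP Pool.Agent.PP.KF
open Pool.Agent.PP.K9 Pool.Agent.PP.K9.H97 Pool.Agent.PP.H75 Pool.Agent.PP.T3 Pool.Agent.PP.SO

attribute [local instance] Ideal.Quotient.field

/-- the conditions for `(X, u)`, `X = y x y⁻¹`, `u = y` -/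
def LA {n : ℕ} {V₀ : Type} [CommGroup V₀] (κ : V₀) (L : Set (SO.SS n V₀)) :
    Set (V₀ × V₀ × ℤ) :=
  {t | ∃ s ∈ L, t = (κ ^ (s.2.1 : ℕ) * s.2.2.1, κ ^ (s.2.1 : ℕ) * s.2.2.1, -((s.1 : ℕ) : ℤ))}

theorem p1_LA {n : ℕ} {V₀ : Type} [CommGroup V₀] (κ : V₀) (L : Set (SO.SS n V₀)) :
    p1 (LA κ L) = aL κ L := by
  unfold p1 aL
  congr 1
  ext p
  constructor
  · rintro ⟨t, ⟨s, hs, rfl⟩, h⟩
    exact ⟨s, hs, h⟩
  · rintro ⟨s, hs, h⟩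
    exact ⟨_, ⟨s, hs, rfl⟩, h⟩

theorem p2_LA {n : ℕ} {V₀ : Type} [CommGroup V₀] (κ : V₀) (L : Set (SO.SS n V₀)) :
    p2 (LA κ L) = aL κ L := by
  unfold p2 aL
  congr 1
  ext p
  constructor
  · rintro ⟨t, ⟨s, hs, rfl⟩, h⟩
    exact ⟨s, hs, h⟩
  · rintro ⟨s, hs, h⟩
    exact ⟨_, ⟨s, hs, rfl⟩, h⟩

theorem mem_C_aL {F V₀ G : Type} [CommGroup V₀] [Group G] (B : Bk F V₀ G) {n : ℕ} (κ : V₀)
    (L : Set (SO.SS n V₀)) (x : G) : x ∈ B.C (aL κ L) ↔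
      ∀ s ∈ L, B.i (κ ^ (s.2.1 : ℕ) * s.2.2.1) * x = x * B.i (κ ^ (s.2.1 : ℕ) * s.2.2.1) := by
  have h1 : B.C (aL κ L) = Subgroup.centralizer
      (B.i '' {a | ∃ s ∈ L, κ ^ (s.2.1 : ℕ) * s.2.2.1 = a}) := by
    unfold Bk.C aL
    rw [MonoidHom.map_closure, Subgroup.centralizer_closure]
  rw [h1, Subgroup.mem_centralizer_iff]
  constructor
  · intro h s hs
    exact h _ ⟨_, ⟨s, hs, rfl⟩, rfl⟩
  · rintro h _ ⟨_, ⟨s, hs, rfl⟩, rfl⟩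
    exact h s hs

/-- the condition for one element -/
theorem cond_iff {G : Type} [Group G] (a x y : G) (m i : ℕ) :
    y⁻¹ * a * y = a * (x ^ m) ^ i ↔
      y * a * y⁻¹ = a * ((y * x * y⁻¹) ^ m) ^ (-(i : ℤ)) := by
  have h0 : ((y * x * y⁻¹) ^ m) ^ (-(i : ℤ)) = y * ((x ^ m) ^ i)⁻¹ * y⁻¹ := by
    rw [conj_pow, zpow_neg, zpow_natCast, conj_pow]
    group
  rw [h0]
  generalize (x ^ m) ^ i = Z
  constructor
  · intro h
    have h1 : a * y = y * (a * Z) := by rw [← h]; group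
    calc y * a * y⁻¹ = y * (a * Z) * Z⁻¹ * y⁻¹ := by group
      _ = a * y * Z⁻¹ * y⁻¹ := by rw [h1]
      _ = a * (y * Z⁻¹ * y⁻¹) := by group
  · intro h
    have h1 : y * a * y⁻¹ * (y * Z) = a * (y * Z⁻¹ * y⁻¹) * (y * Z) := by rw [h]
    have h2 : y * (a * Z) = a * y := by
      calc y * (a * Z) = y * a * y⁻¹ * (y * Z) := by group
        _ = a * (y * Z⁻¹ * y⁻¹) * (y * Z) := h1
        _ = a * y := by group
    calc y⁻¹ * a * y = y⁻¹ * (a * y) := by group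
      _ = y⁻¹ * (y * (a * Z)) := by rw [h2]
      _ = a * Z := by group

open Classical in
/-- the function `Φ` -/
def Ph {F V₀ G : Type} [CommGroup V₀] [Group G] (B : Bk F V₀ G) {n : ℕ} (κ : V₀)
    (L : Set (SO.SS n V₀)) (z y : G) : ℂ :=
  if ∀ s ∈ L, y⁻¹ * B.i (κ ^ (s.2.1 : ℕ) * s.2.2.1) * y =
    B.i (κ ^ (s.2.1 : ℕ) * s.2.2.1) * z ^ (s.1 : ℕ) then 1 else 0

theorem ph_inv1 {F V₀ G : Type} [CommGroup V₀] [Group G] (B : Bk F V₀ G) {n : ℕ} (κ : V₀)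
    (L : Set (SO.SS n V₀)) (z y v : G) (hv : v ∈ B.C (aL κ L)) :
    Ph B κ L (v * z * v⁻¹) (y * v⁻¹) = Ph B κ L z y := by
  rw [mem_C_aL] at hv
  unfold Ph
  congr 1
  apply propext
  refine forall₂_congr fun s hs => ?_
  have h1 := hv s hs
  generalize B.i (κ ^ (s.2.1 : ℕ) * s.2.2.1) = a at h1 ⊢
  rw [conj_pow]
  generalize z ^ (s.1 : ℕ) = Z
  constructor
  · intro h
    have h2 : v * (y⁻¹ * a * y) * v⁻¹ = v * (a * Z) * v⁻¹ := by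
      calc v * (y⁻¹ * a * y) * v⁻¹ = (y * v⁻¹)⁻¹ * a * (y * v⁻¹) := by group
        _ = a * (v * Z * v⁻¹) := h
        _ = a * v * Z * v⁻¹ := by group
        _ = v * a * Z * v⁻¹ := by rw [h1]
        _ = v * (a * Z) * v⁻¹ := by group
    exact mul_left_cancel (mul_right_cancel h2)
  · intro h
    calc (y * v⁻¹)⁻¹ * a * (y * v⁻¹) = v * (y⁻¹ * a * y) * v⁻¹ := by group
      _ = v * (a * Z) * v⁻¹ := by rw [h]
      _ = v * a * Z * v⁻¹ := by group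
      _ = a * v * Z * v⁻¹ := by rw [h1]
      _ = a * (v * Z * v⁻¹) := by group

theorem ph_inv2 {F V₀ G : Type} [CommGroup V₀] [Group G] (B : Bk F V₀ G) {n : ℕ} (κ : V₀)
    (L : Set (SO.SS n V₀)) (z y v : G) (hv : v ∈ B.C (aL κ L)) :
    Ph B κ L z (v * y) = Ph B κ L z y := by
  rw [mem_C_aL] at hv
  unfold Ph
  congr 1
  apply propext
  refine forall₂_congr fun s hs => ?_
  have h1 := hv s hs
  generalize B.i (κ ^ (s.2.1 : ℕ) * s.2.2.1) = a at h1 ⊢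
  have h2 : (v * y)⁻¹ * a * (v * y) = y⁻¹ * a * y := by
    calc (v * y)⁻¹ * a * (v * y) = y⁻¹ * v⁻¹ * (a * v) * y := by group
      _ = y⁻¹ * v⁻¹ * (v * a) * y := by rw [h1]
      _ = y⁻¹ * a * y := by group
  rw [h2]

/-- a number as a sum -/
theorem ncard_sum {X : Type} [Fintype X] (P : X → Prop) [DecidablePred P] :
    (({w | P w}.ncard : ℕ) : ℂ) = ∑ w, if P w then (1 : ℂ) else 0 := by
  classical
  rw [Set.ncard_eq_toFinset_card', Finset.sum_boole]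
  congr 2
  ext w
  simp

/-- the weighted number in terms of the sums `SL` -/
theorem hk_eq (hHKC : HkcStmt) (ℓ : ℕ) [Fact ℓ.Prime] (M : Ideal (integralClosure ℤ ℂ))
    [M.IsMaximal] (hM : (ℓ : integralClosure ℤ ℂ) ∈ M) (h2 : ℓ ≠ 2) (V₀ G : Type)
    [CommGroup V₀] [Finite V₀] [Group G] [Finite G] (E₀ : Subgroup (MulAut V₀))
    (hF : Fq ℓ V₀ E₀) (B : Bk (FF M) V₀ G) (hB : Sb ℓ M E₀ B) (n m : ℕ) (hPE : PE ℓ n m G)
    (κ : V₀) (L : Set (SO.SS n V₀)) :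
    HK B m κ L = (Nat.card (B.C (aL κ L)) : ℂ)⁻¹ ^ 2 *
      ∑ᶠ χ ∈ Ch B (aL κ L), cv (fc B (aL κ L) κ) χ * SL B m (LA κ L) χ χ := by
  have hnum : ∀ t : G, (({w : G × G | SO.kap w.1 w.2 = B.i κ * t ∧ ∀ s ∈ L,
        B.i (κ ^ (s.2.1 : ℕ) * s.2.2.1) * w.1 = w.1 * B.i (κ ^ (s.2.1 : ℕ) * s.2.2.1) ∧
        w.2⁻¹ * B.i (κ ^ (s.2.1 : ℕ) * s.2.2.1) * w.2 =
          B.i (κ ^ (s.2.1 : ℕ) * s.2.2.1) * (w.1 ^ m) ^ (s.1 : ℕ)}.ncard : ℕ) : ℂ) =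
      ∑ᶠ w ∈ {w : G × G | SO.kap w.1 w.2 = B.i κ * t ∧ w.1 ∈ B.C (aL κ L)},
        Ph B κ L (w.1 ^ m) w.2 := by
    intro t
    classical
    have := Fintype.ofFinite G
    rw [ncard_sum, finsum_mem_def, finsum_eq_sum_of_fintype]
    refine Finset.sum_congr rfl fun w _ => ?_
    unfold Ph
    rw [Set.indicator_apply]
    simp only [Set.mem_ofPred_eq, mem_C_aL]
    by_cases h3 : SO.kap w.1 w.2 = B.i κ * t
    · by_cases h4 : ∀ s ∈ L, B.i (κ ^ (s.2.1 : ℕ) * s.2.2.1) * w.1 =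
          w.1 * B.i (κ ^ (s.2.1 : ℕ) * s.2.2.1)
      · by_cases h5 : ∀ s ∈ L, w.2⁻¹ * B.i (κ ^ (s.2.1 : ℕ) * s.2.2.1) * w.2 =
          B.i (κ ^ (s.2.1 : ℕ) * s.2.2.1) * (w.1 ^ m) ^ (s.1 : ℕ)
        · rw [if_pos ⟨h3, fun s hs => ⟨h4 s hs, h5 s hs⟩⟩, if_pos ⟨h3, h4⟩, if_pos h5]
        · rw [if_neg (fun h => h5 fun s hs => (h.2 s hs).2), if_pos ⟨h3, h4⟩, if_neg h5]
      · rw [if_neg (fun h => h4 fun s hs => (h.2 s hs).1), if_neg (fun h => h4 h.2)]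
    · rw [if_neg (fun h => h3 h.1), if_neg (fun h => h3 h.1)]
  have hin : ∀ χ ∈ Ch B (aL κ L),
      ∑ᶠ w ∈ {w : G × G | w.1 ∈ B.C (aL κ L) ∧ w.2 * w.1 * w.2⁻¹ ∈ B.C (aL κ L)},
        Ph B κ L (w.1 ^ m) w.2 * (χ (w.2 * w.1 * w.2⁻¹) * χ w.1⁻¹) =
      SL B m (LA κ L) χ χ := by
    intro χ hχ
    unfold SL
    rw [finsum_mem_def, finsum_mem_def]
    set T : Set (G × G) := {w : G × G | ∀ s ∈ LA κ L, w.2 * B.i s.2.1 * w.2⁻¹ =
      B.i s.1 * (w.1 ^ m) ^ s.2.2} with hT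
    let e : G × G ≃ G × G :=
      { toFun := fun w => (w.2 * w.1 * w.2⁻¹, w.2)
        invFun := fun w => (w.2⁻¹ * w.1 * w.2, w.2)
        left_inv := fun w => by ext <;> simp [mul_assoc]
        right_inv := fun w => by ext <;> simp [mul_assoc] }
    refine Eq.trans ?_ (finsum_comp_equiv e)
    apply finsum_congr
    intro w
    have hmem : e w ∈ T ↔ ∀ s ∈ L, w.2⁻¹ * B.i (κ ^ (s.2.1 : ℕ) * s.2.2.1) * w.2 =
        B.i (κ ^ (s.2.1 : ℕ) * s.2.2.1) * (w.1 ^ m) ^ (s.1 : ℕ) := by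
      constructor
      · intro h s hs
        rw [cond_iff]
        exact h _ ⟨s, hs, rfl⟩
      · rintro h _ ⟨s, hs, rfl⟩
        have := h s hs
        rw [cond_iff] at this
        exact this
    have he : (e w).2⁻¹ * (e w).1⁻¹ * (e w).2 = w.1⁻¹ := by
      show w.2⁻¹ * (w.2 * w.1 * w.2⁻¹)⁻¹ * w.2 = w.1⁻¹
      group
    classical
    rw [Set.indicator_apply, Set.indicator_apply, he]
    show (if w.1 ∈ B.C (aL κ L) ∧ w.2 * w.1 * w.2⁻¹ ∈ B.C (aL κ L) then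
      Ph B κ L (w.1 ^ m) w.2 * (χ (w.2 * w.1 * w.2⁻¹) * χ w.1⁻¹) else 0) =
      if e w ∈ T then χ (w.2 * w.1 * w.2⁻¹) * χ w.1⁻¹ else 0
    by_cases h3 : w.1 ∈ B.C (aL κ L) ∧ w.2 * w.1 * w.2⁻¹ ∈ B.C (aL κ L)
    · rw [if_pos h3]
      unfold Ph
      by_cases h4 : e w ∈ T
      · rw [if_pos h4, if_pos (hmem.1 h4), one_mul]
      · rw [if_neg h4, if_neg (fun h => h4 (hmem.2 h)), zero_mul]
    · rw [if_neg h3]
      have h5 : χ (w.2 * w.1 * w.2⁻¹) * χ w.1⁻¹ = 0 := by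
        by_cases h6 : w.1 ∈ B.C (aL κ L)
        · rw [hχ.1 _ (fun h => h3 ⟨h6, h⟩), zero_mul]
        · rw [hχ.1 w.1⁻¹ (fun h => h6 ((B.C (aL κ L)).inv_mem_iff.1 h)), mul_zero]
      rw [h5, ite_self]
  have hH := hHKC ℓ M hM h2 V₀ G E₀ hF B hB n m hPE (aL κ L) κ (Ph B κ L)
    (fun z y v hv => ph_inv1 B κ L z y v hv) (fun z y v hv => ph_inv2 B κ L z y v hv)
  have e1 : HK B m κ L = (Nat.card (B.C (aL κ L ⊔ Subgroup.zpowers κ)) : ℂ)⁻¹ *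
      ∑ᶠ t : G, bh B (aL κ L ⊔ Subgroup.zpowers κ) t *
        ∑ᶠ w ∈ {w : G × G | SO.kap w.1 w.2 = B.i κ * t ∧ w.1 ∈ B.C (aL κ L)},
          Ph B κ L (w.1 ^ m) w.2 := by
    unfold HK
    congr 1
    apply finsum_congr
    intro t
    rw [hnum t]
  rw [e1, hH]
  congr 1
  apply finsum_mem_congr rfl
  intro χ hχ
  rw [hin χ hχ]

theorem pe_of_inj {ℓ n m : ℕ} {G H : Type} [Group G] [Group H] (j : H →* G)
    (hj : Function.Injective j) (h : PE ℓ n m G) : PE ℓ n m H where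
  pw := h.pw
  md := h.md
  el := fun y hy => by
    obtain ⟨k, hk⟩ := hy
    have h1 : El ℓ (j y) := ⟨k, by rw [← map_pow, hk, map_one]⟩
    obtain ⟨h2, h3⟩ := h.el _ h1
    constructor
    · apply hj
      rw [map_pow, h2]
    · apply hj
      rw [map_pow, h3, map_one]
  rg := fun y hy => by
    have h1 : Reg ℓ (j y) := by
      unfold Reg
      rw [orderOf_injective j hj]
      exact hy
    apply hj
    rw [map_pow, h.rg _ h1, map_one]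

theorem prh (hHKC : HkcStmt) (hPCH : PchStmt) (hSLP : SlpStmt) : PrhStmt := by
  intro ℓ _ M _ hM h2 V₀ G H _ _ _ _ _ _ E₀ A hF B B' j hB hB' hPr n m hPE κ L hA
  have hPE' : PE ℓ n m H := pe_of_inj j hPr.inj hPE
  rw [hk_eq hHKC ℓ M hM h2 V₀ G E₀ hF B hB n m hPE κ L,
    hk_eq hHKC ℓ M hM h2 V₀ H E₀ hF B' hB' n m hPE' κ L, hA]
  obtain ⟨hc, -, -, -, -, hbij, hcv, -⟩ := hPCH ℓ M hM h2 V₀ G H E₀ A B B' j hB hB' hPr A le_rfl
  rw [hc]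
  congr 1
  symm
  refine finsum_mem_eq_of_bijOn _ hbij fun χ hχ => ?_
  rw [hcv κ χ hχ, hSLP ℓ M hM h2 V₀ G H E₀ A hF B B' j hB hB' hPr n m hPE (LA κ L)
    ((p1_LA κ L).trans hA) ((p2_LA κ L).trans hA) χ hχ χ hχ]

end Pool.Agent.PP.SD.H55
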